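import Pool.Agent.Q20.RAGraph.RankPart

namespace Q20.RAGraph

open scoped commutatorElement

/-- the affine group of a field: pairs `x ↦ a x + b` -/
@[ext] structure Aff (F : Type*) [Field F] where
  /-- linear part -/
  a : Fˣ
  /-- translation part -/
  b : F

namespace Aff

variable {F : Type*} [Field F]

instance : Mul (Aff F) := ⟨fun x y => ⟨x.a * y.a, x.b + x.a * y.b⟩⟩
instance : One (Aff F) := ⟨⟨1, 0⟩⟩
instance : Inv (Aff F) := ⟨fun x => ⟨x.a⁻¹, -(((x.a⁻¹ : Fˣ) : F) * x.b)⟩⟩

lemma mul_a (x y : Aff F) : (x * y).a = x.a * y.a := rfl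
lemma mul_b (x y : Aff F) : (x * y).b = x.b + x.a * y.b := rfl
lemma one_a : (1 : Aff F).a = 1 := rfl
lemma one_b : (1 : Aff F).b = 0 := rfl
lemma inv_a (x : Aff F) : (x⁻¹).a = x.a⁻¹ := rfl
lemma inv_b (x : Aff F) : (x⁻¹).b = -(((x.a⁻¹ : Fˣ) : F) * x.b) := rfl

instance : Group (Aff F) :=
  Group.ofLeftAxioms
    (fun x y z => by
      ext
      · simp [mul_a, mul_assoc]
      · simp only [mul_b, mul_a, Units.val_mul]; ring)
    (fun x => by
      ext
      · simp [mul_a, one_a]
      · simp [mul_b, one_a, one_b])
    (fun x => by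
      ext
      · simp [mul_a, inv_a, one_a]
      · simp only [mul_b, inv_a, inv_b, one_b]; ring)

instance [Finite F] : Finite (Aff F) :=
  Finite.of_injective (fun x : Aff F => (x.a, x.b)) (by
    intro x y h
    simp only [Prod.mk.injEq] at h
    ext
    · rw [h.1]
    · exact h.2)

/-- translations -/
def T (c : F) : Aff F := ⟨1, c⟩

lemma T_a (c : F) : (T c).a = 1 := rfl
lemma T_b (c : F) : (T c).b = c := rfl

lemma T_add (c c' : F) : T (c + c') = T c * T c' := by
  ext
  · simp [mul_a, T_a]
  · simp [mul_b, T_a, T_b]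

lemma T_zero : T (0 : F) = 1 := rfl

lemma T_neg (c : F) : T (-c) = (T c)⁻¹ := by
  rw [eq_inv_iff_mul_eq_one, ← T_add, neg_add_cancel, T_zero]

lemma T_inj {c c' : F} (h : T c = T c') : c = c' := congrArg Aff.b h

/-- the commutator of two elements is a translation -/
lemma comm_eq (x y : Aff F) :
    x * y * x⁻¹ * y⁻¹ = T (x.b + x.a * y.b - (y.b + y.a * x.b)) := by
  rw [mul_inv_eq_iff_eq_mul, mul_inv_eq_iff_eq_mul]
  ext
  · simp only [mul_a, T_a, one_mul, Units.val_mul]
    rw [mul_comm]
  · simp only [mul_a, mul_b, T_a, T_b, one_mul, Units.val_one, Units.val_mul]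
    ring

/-- dilations -/
def dil (s : Fˣ) : Aff F := ⟨s, 0⟩

lemma dil_comm (s : Fˣ) (c : F) :
    dil s * T c * (dil s)⁻¹ * (T c)⁻¹ = T (((s : F) - 1) * c) := by
  rw [comm_eq]
  congr 1
  simp only [dil, T_a, T_b, Units.val_one]
  ring

lemma mem_commutator_iff (s : Fˣ) (hs : s ≠ 1) (x : Aff F) :
    x ∈ commutator (Aff F) ↔ ∃ c, x = T c := by
  constructor
  · intro hx
    have hle : commutator (Aff F) ≤
        { carrier := {x : Aff F | ∃ c, x = T c}
          mul_mem' := by
            rintro _ _ ⟨c, rfl⟩ ⟨c', rfl⟩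
            exact ⟨c + c', (T_add c c').symm⟩
          one_mem' := ⟨0, rfl⟩
          inv_mem' := by
            rintro _ ⟨c, rfl⟩
            exact ⟨-c, (T_neg c).symm⟩ : Subgroup (Aff F) } := by
      rw [commutator_eq_closure, Subgroup.closure_le]
      rintro _ ⟨g, h, rfl⟩
      exact ⟨_, by rw [commutatorElement_def, comm_eq]⟩
    exact hle hx
  · rintro ⟨c, rfl⟩
    have hs' : (s : F) - 1 ≠ 0 := by
      intro h
      rw [sub_eq_zero] at h
      exact hs (Units.ext h)
    have : T c = ⁅dil s, T (c / ((s : F) - 1))⁆ := by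
      rw [commutatorElement_def, dil_comm]
      congr 1
      field_simp
    rw [this, commutator_eq_closure]
    exact Subgroup.subset_closure (commutator_mem_commutatorSet _ _)

/-- the commutator subgroup of the affine group -/
noncomputable def commEquiv (s : Fˣ) (hs : s ≠ 1) : Multiplicative F ≃* commutator (Aff F) where
  toFun c := ⟨T (Multiplicative.toAdd c), (mem_commutator_iff s hs _).2 ⟨_, rfl⟩⟩
  invFun x := Multiplicative.ofAdd x.1.b
  left_inv c := by simp [T_b]
  right_inv x := by
    obtain ⟨c, hc⟩ := (mem_commutator_iff s hs x.1).1 x.2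
    apply Subtype.ext
    simp only [toAdd_ofAdd]
    rw [hc, T_b]
  map_mul' c c' := by
    apply Subtype.ext
    simp only [toAdd_mul, T_add]
    rfl

end Aff

/-! ### Powers -/

section

variable {V : Type*} {F : Type*} [Field F]

/-- the tuple of translations attached to a function -/
def TT (w : V → F) : V → Aff F := fun v => Aff.T (w v)

lemma TT_add (w w' : V → F) : TT (w + w') = TT w * TT w' := by
  funext v; exact Aff.T_add _ _

lemma TT_zero : TT (0 : V → F) = 1 := rfl

lemma TT_neg (w : V → F) : TT (-w) = (TT w)⁻¹ := by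
  funext v; exact Aff.T_neg _

lemma TT_inj {w w' : V → F} (h : TT w = TT w') : w = w' := by
  funext v
  exact Aff.T_inj (congrFun h v)

open Classical in
lemma ind_apply (S : Set V) (v : V) : ind S v = if v ∈ S then 1 else 0 := by
  unfold ind
  rw [Set.indicator_apply]

open Classical in
lemma gen_apply {G : Type*} [Group G] (Γ : SimpleGraph V) (g : G) (v u : V) :
    gen Γ g v u = if u ∈ closedNbhd Γ v then g else 1 := by
  unfold gen vpow
  rw [ind_apply]
  split_ifs <;> simp

lemma mem_closedNbhd_comm (Γ : SimpleGraph V) (u v : V) :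
    u ∈ closedNbhd Γ v ↔ v ∈ closedNbhd Γ u := by
  unfold closedNbhd
  simp only [Set.mem_setOf_eq]
  rw [Γ.adj_comm, eq_comm]

open Classical in
/-- the indicator function over `F` -/
noncomputable def indF (F : Type*) [Field F] (S : Set V) : V → F := fun v => if v ∈ S then 1 else 0

open Classical in
lemma comm_gen (Γ : SimpleGraph V) (g h : Aff F) (v w : V) :
    gen Γ g v * gen Γ h w * (gen Γ g v)⁻¹ * (gen Γ h w)⁻¹ =
      TT ((g.b + g.a * h.b - (h.b + h.a * g.b)) • indF F (closedNbhd Γ v ∩ closedNbhd Γ w)) := by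
  funext u
  simp only [Pi.mul_apply, Pi.inv_apply, gen_apply, TT, Pi.smul_apply, indF, smul_eq_mul,
    Set.mem_inter_iff]
  by_cases h1 : u ∈ closedNbhd Γ v <;> by_cases h2 : u ∈ closedNbhd Γ w
  · simp only [h1, h2, if_true, and_self, mul_one]
    exact Aff.comm_eq g h
  · simp [h1, h2, Aff.T_zero]
  · simp [h1, h2, Aff.T_zero]
  · simp [h1, h2, Aff.T_zero]

/-- the `F`-span of the rows of the RA matrix -/
noncomputable def rowSpan (F : Type*) [Field F] (Γ : SimpleGraph V) : Submodule F (V → F) :=
  Submodule.span F (Set.range fun p : V × V => indF F (closedNbhd Γ p.1 ∩ closedNbhd Γ p.2))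

lemma mem_commB_iff (Γ : SimpleGraph V) (s : Fˣ) (hs : s ≠ 1) (y : V → Aff F) :
    y ∈ commB (Aff F) Γ ↔ ∃ w ∈ rowSpan F Γ, y = TT w := by
  have hs' : (s : F) - 1 ≠ 0 := by
    intro h
    rw [sub_eq_zero] at h
    exact hs (Units.ext h)
  constructor
  · intro hy
    have hle : commB (Aff F) Γ ≤
        { carrier := {y : V → Aff F | ∃ w ∈ rowSpan F Γ, y = TT w}
          mul_mem' := by
            rintro _ _ ⟨w, hw, rfl⟩ ⟨w', hw', rfl⟩
            exact ⟨w + w', Submodule.add_mem _ hw hw', (TT_add w w').symm⟩
          one_mem' := ⟨0, Submodule.zero_mem _, rfl⟩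
          inv_mem' := by
            rintro _ ⟨w, hw, rfl⟩
            exact ⟨-w, Submodule.neg_mem _ hw, (TT_neg w).symm⟩ : Subgroup (V → Aff F) } := by
      unfold commB
      rw [Subgroup.closure_le]
      rintro _ ⟨g, h, v, w, rfl⟩
      refine ⟨_, ?_, comm_gen Γ g h v w⟩
      exact Submodule.smul_mem _ _ (Submodule.subset_span ⟨(v, w), rfl⟩)
    exact hle hy
  · rintro ⟨w, hw, rfl⟩
    have key : ∀ w ∈ rowSpan F Γ, ∀ c : F, TT (c • w) ∈ commB (Aff F) Γ := by
      intro w hw
      unfold rowSpan at hw
      induction hw using Submodule.span_induction with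
      | mem x hx =>
        obtain ⟨p, rfl⟩ := hx
        intro c
        apply Subgroup.subset_closure
        refine ⟨Aff.dil s, Aff.T (c / ((s : F) - 1)), p.1, p.2, ?_⟩
        rw [comm_gen]
        congr 2
        simp only [Aff.dil, Aff.T_a, Aff.T_b, Units.val_one]
        field_simp
        ring
      | zero =>
        intro c
        rw [smul_zero, TT_zero]
        exact Subgroup.one_mem _
      | add x y _ _ hx hy =>
        intro c
        rw [smul_add, TT_add]
        exact Subgroup.mul_mem _ (hx c) (hy c)
      | smul a x _ hx =>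
        intro c
        rw [smul_smul]
        exact hx _
    have := key w hw 1
    rwa [one_smul] at this

/-- `Comm_b` is isomorphic to the row span -/
noncomputable def commBEquiv (Γ : SimpleGraph V) (s : Fˣ) (hs : s ≠ 1) :
    Multiplicative (rowSpan F Γ) ≃* commB (Aff F) Γ where
  toFun w := ⟨TT (Multiplicative.toAdd w).1,
    (mem_commB_iff Γ s hs _).2 ⟨_, (Multiplicative.toAdd w).2, rfl⟩⟩
  invFun y := Multiplicative.ofAdd ⟨fun v => (y.1 v).b, by
    obtain ⟨w, hw, h⟩ := (mem_commB_iff Γ s hs _).1 y.2
    rw [h]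
    exact hw⟩
  left_inv w := by
    apply Multiplicative.toAdd.injective
    apply Subtype.ext
    rfl
  right_inv y := by
    obtain ⟨w, hw, h⟩ := (mem_commB_iff Γ s hs _).1 y.2
    apply Subtype.ext
    simp only [toAdd_ofAdd, h]
    rfl
  map_mul' w w' := by
    apply Subtype.ext
    simp only [toAdd_mul, Submodule.coe_add, TT_add]
    rfl

/-- For a graph without closed twins all tuples of translations lie in the graph power. -/
lemma TT_mem_graphPower [Fintype V] (Γ : SimpleGraph V) (s : Fˣ) (hs : s ≠ 1)
    (htw : ∀ u w, closedNbhd Γ u = closedNbhd Γ w → u = w) (w : V → F) :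
    TT w ∈ graphPower (Aff F) Γ := by
  classical
  have hs' : (s : F) - 1 ≠ 0 := by
    intro h
    rw [sub_eq_zero] at h
    exact hs (Units.ext h)
  have hgen : ∀ (g : Aff F) (v : V), gen Γ g v ∈ graphPower (Aff F) Γ :=
    fun g v => Subgroup.subset_closure ⟨g, v, rfl⟩
  let A : Set (V → F) := {w | ∀ c : F, TT (c • w) ∈ graphPower (Aff F) Γ}
  have hadd : ∀ x y, x ∈ A → y ∈ A → x + y ∈ A := by
    intro x y hx hy c
    rw [smul_add, TT_add]
    exact Subgroup.mul_mem _ (hx c) (hy c)
  have hsmul : ∀ (a : F) x, x ∈ A → a • x ∈ A := by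
    intro a x hx c
    rw [smul_smul]
    exact hx _
  have hzero : (0 : V → F) ∈ A := by
    intro c
    rw [smul_zero, TT_zero]
    exact Subgroup.one_mem _
  have hsub : ∀ x y, x ∈ A → y ∈ A → x - y ∈ A := by
    intro x y hx hy
    have := hadd _ _ hx (hsmul (-1) _ hy)
    simpa [sub_eq_add_neg] using this
  have hind : ∀ v, indF F (closedNbhd Γ v) ∈ A := by
    intro v c
    have : TT (c • indF F (closedNbhd Γ v)) = gen Γ (Aff.T c) v := by
      funext u
      rw [gen_apply]
      simp only [TT, Pi.smul_apply, indF, smul_eq_mul]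
      split_ifs
      · rw [mul_one]
      · rw [mul_zero]; rfl
    rw [this]
    exact hgen _ _
  have hmul : ∀ v x, x ∈ A → x * indF F (closedNbhd Γ v) ∈ A := by
    intro v x hx c
    have h1 := hx (c / ((s : F) - 1))
    have h2 := Subgroup.mul_mem _ (Subgroup.mul_mem _ (hgen (Aff.dil s) v) h1)
      (Subgroup.inv_mem _ (hgen (Aff.dil s) v))
    have h3 := Subgroup.mul_mem _ h2 (Subgroup.inv_mem _ h1)
    have : TT (c • (x * indF F (closedNbhd Γ v))) =
        gen Γ (Aff.dil s) v * TT ((c / ((s : F) - 1)) • x) * (gen Γ (Aff.dil s) v)⁻¹ *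
          (TT ((c / ((s : F) - 1)) • x))⁻¹ := by
      funext u
      simp only [Pi.mul_apply, Pi.inv_apply, gen_apply, TT, Pi.smul_apply, smul_eq_mul, indF]
      by_cases hu : u ∈ closedNbhd Γ v
      · simp only [hu, if_true, Aff.dil_comm]
        congr 1
        field_simp
      · simp [hu, Aff.T_zero]
    rw [this]
    exact h3
  -- the point masses lie in `A`
  have hsingle : ∀ u, (Pi.single u (1 : F) : V → F) ∈ A := by
    intro u
    let f : V → (V → F) := fun v => if v ∈ closedNbhd Γ u then indF F (closedNbhd Γ v)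
      else 1 - indF F (closedNbhd Γ v)
    have hprod : ∀ S : Finset V, indF F (closedNbhd Γ u) * ∏ v ∈ S, f v ∈ A := by
      intro S
      induction S using Finset.induction_on with
      | empty => rw [Finset.prod_empty, mul_one]; exact hind u
      | insert v S hv ih =>
        rw [Finset.prod_insert hv, mul_comm (f v), ← mul_assoc]
        simp only [f]
        split_ifs
        · exact hmul v _ ih
        · rw [mul_sub, mul_one]
          exact hsub _ _ ih (hmul v _ ih)
    have heq : (Pi.single u (1 : F) : V → F) =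
        indF F (closedNbhd Γ u) * ∏ v ∈ Finset.univ, f v := by
      funext x
      rw [Pi.mul_apply, Finset.prod_apply]
      by_cases hxu : x = u
      · subst hxu
        rw [Pi.single_eq_same]
        have h1 : indF F (closedNbhd Γ x) x = 1 := by
          simp [indF, closedNbhd]
        rw [h1, one_mul, Finset.prod_eq_one]
        intro v _
        simp only [f]
        split_ifs with h
        · simp only [indF]
          rw [if_pos ((mem_closedNbhd_comm Γ _ _).1 h)]
        · simp only [Pi.sub_apply, Pi.one_apply, indF]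
          rw [if_neg (fun h' => h ((mem_closedNbhd_comm Γ _ _).1 h')), sub_zero]
      · rw [Pi.single_eq_of_ne hxu]
        symm
        have hne : closedNbhd Γ x ≠ closedNbhd Γ u := fun h => hxu (htw _ _ h)
        obtain ⟨v, hv⟩ : ∃ v, ¬ (v ∈ closedNbhd Γ x ↔ v ∈ closedNbhd Γ u) := by
          by_contra hno
          push Not at hno
          exact hne (Set.ext hno)
        have h0 : f v x = 0 := by
          simp only [f]
          by_cases h : v ∈ closedNbhd Γ u
          · rw [if_pos h]
            simp only [indF]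
            rw [if_neg]
            intro h'
            exact hv ⟨fun _ => h, fun _ => (mem_closedNbhd_comm Γ _ _).1 h'⟩
          · rw [if_neg h]
            simp only [Pi.sub_apply, Pi.one_apply, indF]
            rw [if_pos, sub_self]
            by_contra h'
            apply hv
            constructor
            · intro h''
              exact absurd ((mem_closedNbhd_comm Γ _ _).1 h'') h'
            · intro h''
              exact absurd h'' h
        rw [Finset.prod_eq_zero (Finset.mem_univ v) h0, mul_zero]
    rw [heq]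
    exact hprod _
  have hw : w ∈ A := by
    have : w = ∑ u, (w u) • (Pi.single u (1 : F) : V → F) := by
      funext x
      rw [Finset.sum_apply, Finset.sum_eq_single x]
      · simp
      · intro u _ hu
        simp [Pi.single_eq_of_ne (Ne.symm hu)]
      · intro h; exact absurd (Finset.mem_univ _) h
    rw [this]
    have hsum : ∀ S : Finset V, ∑ u ∈ S, (w u) • (Pi.single u (1 : F) : V → F) ∈ A := by
      intro S
      induction S using Finset.induction_on with
      | empty => rw [Finset.sum_empty]; exact hzero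
      | insert v S hv ih =>
        rw [Finset.sum_insert hv]
        exact hadd _ _ (hsmul _ _ (hsingle v)) ih
    exact hsum _
  have := hw 1
  rwa [one_smul] at this

end

end Q20.RAGraph
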