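import Mathlib

/-!
# Graph powers of groups, the RA matrix and its elementary divisors
-/

namespace Q20.RAGraph

variable {V : Type*}

/-- The closed neighbourhood of a vertex. -/
def closedNbhd (Γ : SimpleGraph V) (v : V) : Set V := {u | u = v ∨ Γ.Adj v u}

/-- The indicator vector of a set of vertices. -/
noncomputable def ind (S : Set V) : V → ℤ := S.indicator (fun _ => 1)

/-- The tuple `g ^ x` of elements of `G`. -/
def vpow {G : Type*} [Group G] (g : G) (x : V → ℤ) : V → G := fun v => g ^ x v

/-- The generator `g ^ v = g ^ (1_{N[v]})` of the graph power. -/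
noncomputable def gen {G : Type*} [Group G] (Γ : SimpleGraph V) (g : G) (v : V) : V → G :=
  vpow g (ind (closedNbhd Γ v))

/-- The graph power of `G`. -/
def graphPower (G : Type*) [Group G] (Γ : SimpleGraph V) : Subgroup (V → G) :=
  Subgroup.closure {y | ∃ (g : G) (v : V), y = gen Γ g v}

/-- The graph is `G`-RA: the full direct power of the commutator subgroup of `G` is contained in
the graph power. -/
def IsRA (G : Type*) [Group G] (Γ : SimpleGraph V) : Prop :=
  Subgroup.pi Set.univ (fun _ : V => commutator G) ≤ graphPower G Γ

/-- The subgroup generated by all commutators of two generators of the graph power. -/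
def commB (G : Type*) [Group G] (Γ : SimpleGraph V) : Subgroup (V → G) :=
  Subgroup.closure {y | ∃ (g h : G) (v w : V), 
    y = gen Γ g v * gen Γ h w * (gen Γ g v)⁻¹ * (gen Γ h w)⁻¹}

/-- The RA matrix: its rows are the indicator vectors of the sets `N[u] ∩ N[v]`. -/
noncomputable def raMatrix (Γ : SimpleGraph V) : Matrix (V × V) V ℤ :=
  fun p => ind (closedNbhd Γ p.1 ∩ closedNbhd Γ p.2)

/-- `d 0 ∣ d 1 ∣ ...` are the elementary divisors of the integer matrix `M`, that is, the
diagonal entries of its Smith normal form: multiplying `M` on both sides by unimodular matrices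
one can reach a matrix whose entry in row `e i` and column `f i` is `d i` and whose other
entries vanish (`e` is injective and `f` is bijective). -/
def IsElementaryDivisors {R C : Type*} [Fintype R] [Fintype C] [DecidableEq R] [DecidableEq C]
    (M : Matrix R C ℤ) (d : Fin (Fintype.card C) → ℕ) : Prop :=
  (∀ i j, i ≤ j → d i ∣ d j) ∧
    ∃ (P : Matrix R R ℤ) (Q : Matrix C C ℤ), IsUnit P.det ∧ IsUnit Q.det ∧
      ∃ (e : Fin (Fintype.card C) ↪ R) (f : Fin (Fintype.card C) ≃ C),
        ∀ r c, (P * M * Q) r c = if r = e (f.symm c) then (d (f.symm c) : ℤ) else 0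

end Q20.RAGraph
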