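import Pool.Agent.Q20.RAGraph.Aff

namespace Q20.RAGraph

open scoped commutatorElement

variable {V : Type*}

/-- closed twins prevent the RA property -/
lemma no_twins {G : Type*} [Group G] (hG : ∃ a b : G, a * b ≠ b * a) (Γ : SimpleGraph V)
    (hRA : IsRA G Γ) (u w : V) (huw : closedNbhd Γ u = closedNbhd Γ w) : u = w := by
  classical
  by_contra hne
  obtain ⟨a, b, hab⟩ := hG
  set c : G := ⁅a, b⁆ with hc
  have hc1 : c ≠ 1 := by
    intro h
    rw [hc, commutatorElement_eq_one_iff_mul_comm] at h
    exact hab h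
  have hcmem : c ∈ commutator G := by
    rw [commutator_eq_closure]
    exact Subgroup.subset_closure (commutator_mem_commutatorSet _ _)
  let y : V → G := Pi.mulSingle u c
  have hy : y ∈ Subgroup.pi Set.univ (fun _ : V => commutator G) := by
    intro v _
    by_cases hv : v = u
    · subst hv
      simp only [y, Pi.mulSingle_eq_same]
      exact hcmem
    · simp only [y, Pi.mulSingle_eq_of_ne hv]
      exact Subgroup.one_mem _
  have hle : graphPower G Γ ≤
      { carrier := {y : V → G | y u = y w}
        mul_mem' := by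
          intro x y hx hy
          simp only [Set.mem_setOf_eq, Pi.mul_apply] at *
          rw [hx, hy]
        one_mem' := rfl
        inv_mem' := by
          intro x hx
          simp only [Set.mem_setOf_eq, Pi.inv_apply] at *
          rw [hx] : Subgroup (V → G) } := by
    unfold graphPower
    rw [Subgroup.closure_le]
    rintro _ ⟨g, v, rfl⟩
    change gen Γ g v u = gen Γ g v w
    rw [gen_apply, gen_apply]
    have : u ∈ closedNbhd Γ v ↔ w ∈ closedNbhd Γ v := by
      rw [mem_closedNbhd_comm Γ u v, mem_closedNbhd_comm Γ w v, huw]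
    simp only [this]
  have h1 : y u = y w := hle (hRA hy)
  simp only [y, Pi.mulSingle_eq_same, Pi.mulSingle_eq_of_ne (Ne.symm hne)] at h1
  exact hc1 h1

variable [Fintype V] [DecidableEq V]

lemma rowSpan_finrank {F : Type*} [Field F] (Γ : SimpleGraph V)
    {d : Fin (Fintype.card V) → ℕ} (h : IsElementaryDivisors (raMatrix Γ) d) :
    Module.finrank F (rowSpan F Γ) = Nat.card {i // (d i : F) ≠ 0} := by
  rw [← rank_of_elementary (F := F) h, Matrix.rank_eq_finrank_span_row]
  unfold rowSpan
  have : (fun p : V × V => indF F (closedNbhd Γ p.1 ∩ closedNbhd Γ p.2)) =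
      ((raMatrix Γ).map (Int.cast : ℤ → F)).row := by
    funext p v
    simp only [Matrix.row, Matrix.map_apply, raMatrix, ind_apply, indF]
    split_ifs <;> simp
  rw [this]

theorem exists_group (Γ : SimpleGraph V) {d : Fin (Fintype.card V) → ℕ}
    (h : IsElementaryDivisors (raMatrix Γ) d)
    (htw : ∀ u w, closedNbhd Γ u = closedNbhd Γ w → u = w) :
    ∃ (G : Type) (_ : Group G) (_ : Finite G), (∃ a b : G, a * b ≠ b * a) ∧
      Nonempty (commB G Γ ≃* (Fin (Fintype.card V - Nat.card {i // d i ≠ 1}) → commutator G)) ∧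
      IsRA G Γ := by
  classical
  -- the choice of the prime
  obtain ⟨p, hp, hpd⟩ : ∃ p : ℕ, p.Prime ∧ ∀ i, (d i ≠ 1 ↔ p ∣ d i) := by
    by_cases hex : ∃ i, d i ≠ 1
    · obtain ⟨i₀, hi₀, hmin⟩ : ∃ i₀, d i₀ ≠ 1 ∧ ∀ i, d i ≠ 1 → i₀ ≤ i := by
        have hne : ((Finset.univ : Finset (Fin (Fintype.card V))).filter
            (fun i => d i ≠ 1)).Nonempty := by
          obtain ⟨i, hi⟩ := hex
          exact ⟨i, by simpa using hi⟩
        refine ⟨_, (Finset.mem_filter.1 (Finset.min'_mem _ hne)).2, fun i hi => ?_⟩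
        exact Finset.min'_le _ _ (by simpa using hi)
      have hp := Nat.minFac_prime hi₀
      refine ⟨Nat.minFac (d i₀), hp, fun i => ⟨fun hi => ?_, fun hi h1 => ?_⟩⟩
      · exact (Nat.minFac_dvd _).trans (h.1 _ _ (hmin i hi))
      · rw [h1] at hi
        exact hp.one_lt.ne' (Nat.dvd_one.1 hi)
    · push Not at hex
      refine ⟨2, Nat.prime_two, fun i => ⟨fun hi => absurd (hex i) hi, fun hi h1 => ?_⟩⟩
      rw [h1] at hi
      omega
  have := Fact.mk hp
  let F := GaloisField p 2
  have hcard : Nat.card F = p ^ 2 := GaloisField.card p 2 (by norm_num)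
  have : Fintype F := Fintype.ofFinite F
  obtain ⟨s, hs⟩ : ∃ s : Fˣ, s ≠ 1 := by
    have h1 : 1 < Fintype.card Fˣ := by
      rw [Fintype.card_units, ← Nat.card_eq_fintype_card, hcard]
      have : 2 ^ 2 ≤ p ^ 2 := Nat.pow_le_pow_left hp.two_le 2
      omega
    have := Fintype.one_lt_card_iff_nontrivial.1 h1
    exact exists_ne 1
  have hs' : (s : F) - 1 ≠ 0 := by
    intro h
    rw [sub_eq_zero] at h
    exact hs (Units.ext h)
  refine ⟨Aff F, inferInstance, inferInstance, ⟨Aff.dil s, Aff.T 1, ?_⟩, ⟨?_⟩, ?_⟩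
  · intro hab
    have h1 := congrArg Aff.b hab
    simp only [Aff.mul_b, Aff.dil, Aff.T_a, Aff.T_b, zero_add, mul_one, mul_zero, add_zero] at h1
    apply hs
    exact Units.ext h1
  · have hr : Module.finrank F (rowSpan F Γ) =
        Fintype.card V - Nat.card {i // d i ≠ 1} := by
      rw [rowSpan_finrank Γ h]
      have e1 : Nat.card {i : Fin (Fintype.card V) // (d i : F) ≠ 0} =
          Nat.card {i : Fin (Fintype.card V) // ¬ (d i ≠ 1)} := by
        apply Nat.card_congr
        apply Equiv.subtypeEquivRight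
        intro i
        rw [hpd i, Ne, CharP.cast_eq_zero_iff F p]
      rw [e1, Nat.card_eq_fintype_card, Nat.card_eq_fintype_card, Fintype.card_subtype_compl,
        Fintype.card_fin]
    have e : rowSpan F Γ ≃ₗ[F] (Fin (Fintype.card V - Nat.card {i // d i ≠ 1}) → F) :=
      LinearEquiv.ofFinrankEq _ _ (by rw [hr, Module.finrank_fin_fun])
    refine (commBEquiv Γ s hs).symm.trans ?_
    refine (AddEquiv.toMultiplicative e.toAddEquiv).trans ?_
    exact
      { toFun := fun f i => Aff.commEquiv s hs (Multiplicative.ofAdd (Multiplicative.toAdd f i))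
        invFun := fun g => Multiplicative.ofAdd fun i =>
          Multiplicative.toAdd ((Aff.commEquiv s hs).symm (g i))
        left_inv := fun f => by simp
        right_inv := fun g => by simp
        map_mul' := fun f g => by
          funext i
          simp only [toAdd_mul, Pi.add_apply, Pi.mul_apply, ofAdd_add, map_mul] }
  · intro y hy
    have hw : y = TT (fun v => (y v).b) := by
      funext v
      obtain ⟨c, hc⟩ := (Aff.mem_commutator_iff s hs _).1 (hy v (Set.mem_univ v))
      simp only [TT]
      rw [hc, Aff.T_b]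
    rw [hw]
    exact TT_mem_graphPower Γ s hs htw _

theorem main (Γ : SimpleGraph V) (d : Fin (Fintype.card V) → ℕ)
    (hd : IsElementaryDivisors (raMatrix Γ) d) :
    (∃ (G : Type) (_ : Group G) (_ : Finite G), (∃ a b : G, a * b ≠ b * a) ∧
      Nonempty (commB G Γ ≃* (Fin (Fintype.card V - Nat.card {i // d i ≠ 1}) → commutator G)) ∧
      IsRA G Γ) ↔
    ∀ u w, closedNbhd Γ u = closedNbhd Γ w → u = w := by
  constructor
  · rintro ⟨G, _, _, hG, -, hRA⟩ u w huw
    exact no_twins hG Γ hRA u w huw
  · exact exists_group Γ hd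

end Q20.RAGraph
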