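import Pool.Agent.Q20.RAGraph.Defs

namespace Q20.RAGraph

open Matrix

variable {R C : Type*} [Fintype R] [Fintype C] [DecidableEq R] [DecidableEq C]

lemma rank_of_elementary {F : Type*} [Field F] {M : Matrix R C ℤ}
    {d : Fin (Fintype.card C) → ℕ} (h : IsElementaryDivisors M d) :
    (M.map (Int.cast : ℤ → F)).rank = Nat.card {i // (d i : F) ≠ 0} := by
  classical
  obtain ⟨-, P, Q, hP, hQ, e, f, hD⟩ := h
  let φ : ℤ →+* F := Int.castRingHom F
  have hPF : IsUnit (P.map φ).det := by
    have : (P.map φ).det = φ P.det := (RingHom.map_det φ P).symm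
    rw [this]
    exact hP.map φ
  have hQF : IsUnit (Q.map φ).det := by
    have : (Q.map φ).det = φ Q.det := (RingHom.map_det φ Q).symm
    rw [this]
    exact hQ.map φ
  have h1 : (M.map (Int.cast : ℤ → F)).rank = ((P * M * Q).map φ).rank := by
    rw [Matrix.map_mul, Matrix.map_mul, rank_mul_eq_left_of_isUnit_det _ _ hQF,
      rank_mul_eq_right_of_isUnit_det _ _ hPF]
    rfl
  rw [h1]
  -- the factorization of the diagonal matrix
  let E : Matrix R (Fin (Fintype.card C)) F := fun r i => if r = e i then 1 else 0
  let E' : Matrix (Fin (Fintype.card C)) R F := fun i r => if r = e i then 1 else 0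
  let K : Matrix (Fin (Fintype.card C)) C F := fun i c => if i = f.symm c then 1 else 0
  let K' : Matrix C (Fin (Fintype.card C)) F := fun c i => if i = f.symm c then 1 else 0
  let Δ : Matrix (Fin (Fintype.card C)) (Fin (Fintype.card C)) F := diagonal fun i => (d i : F)
  have hfac : (P * M * Q).map φ = E * (Δ * K) := by
    ext r c
    rw [Matrix.map_apply, hD, Matrix.mul_apply]
    simp only [Δ, diagonal_mul, E, K]
    rw [Finset.sum_eq_single (f.symm c)]
    · by_cases h : r = e (f.symm c)
      · simp [h, φ]
      · simp [h]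
    · intro i _ hi
      simp [hi]
    · intro h; exact absurd (Finset.mem_univ _) h
  have hEE : E' * E = 1 := by
    ext i j
    rw [Matrix.mul_apply, Finset.sum_eq_single (e i)]
    · simp only [E, E', if_true, one_mul, Matrix.one_apply, e.injective.eq_iff]
    · intro r _ hr
      simp [E', hr]
    · intro h; exact absurd (Finset.mem_univ _) h
  have hKK : K * K' = 1 := by
    ext i j
    rw [Matrix.mul_apply, Finset.sum_eq_single (f i)]
    · simp only [K, K', Equiv.symm_apply_apply, if_true, one_mul, Matrix.one_apply]
      simp only [eq_comm]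
    · intro c _ hc
      have : i ≠ f.symm c := by
        rintro rfl
        exact hc (by simp)
      simp [K, this]
    · intro h; exact absurd (Finset.mem_univ _) h
  have hle : ((P * M * Q).map φ).rank ≤ Δ.rank := by
    rw [hfac]
    exact (rank_mul_le_right _ _).trans (rank_mul_le_left _ _)
  have hge : Δ.rank ≤ ((P * M * Q).map φ).rank := by
    have : Δ = E' * (P * M * Q).map φ * K' := by
      rw [hfac, ← Matrix.mul_assoc E', hEE, Matrix.one_mul, Matrix.mul_assoc, hKK,
        Matrix.mul_one]
    calc Δ.rank = (E' * (P * M * Q).map φ * K').rank := by rw [← this]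
      _ ≤ (E' * (P * M * Q).map φ).rank := rank_mul_le_left _ _
      _ ≤ _ := rank_mul_le_right _ _
  rw [le_antisymm hle hge, rank_diagonal, Nat.card_eq_fintype_card]

end Q20.RAGraph
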